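import Pool.Agent.K6.H53.DM.Defs

/-!
# MP_b15c9e_ag: the full Dynamical Mordell-Lang property of almost all integral members of a family with
one strictly critically finite member

Let `F_t` be a family of `N + 1` forms of degree `d ≥ 1` in `N + 1` variables whose coefficients are
complex polynomials in `t` (`member F t`), and let `x(t)` be a curve of points given by complex
polynomials (`start x t`). An endomorphism `Φ` of `ℙ^N` with critical locus `C` is called strictly
critically finite outside a closed set `B` if there are closed sets `ℙ^N = D_0, D_1, …, D_k = B` with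
`Φ(D_i) ⊆ D_i`, such that for all `i < k` some iterate of `Φ` maps `D_i ∩ C` into `D_{i+1}`, and
`Φ^{-1}(B) ⊆ B`; it is called strictly critically finite if `B = ∅`.

**Theorem.**

1. If the member `F_α` at ONE algebraic number `α` is a strictly critically finite endomorphism then
   there are `C` and `r` such that for all `v ≤ H`, `H ≥ 2`, all but at most `C (log H)^r` of the rational
   numbers `t` with denominator `v` and numerator at most `H` in absolute value have the property: `F_t`
   is an endomorphism of `ℙ^N` with the full Dynamical Mordell-Lang property, for all complex points and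
   all closed subsets.
2. The same for the orbit of `x(t)` if `F_α` is strictly critically finite outside a closed set `B` which
   does not contain the point `x(α)`.
3. For all `N` and `d`, all `d`-th roots of unity `ζ ≠ 1` and ALL systems `G_0, …, G_N` of forms of degree
   `d` with arbitrary complex coefficients: for all but at most `C (log H)^r` of the integers `t` with
   `|t| ≤ H` the endomorphism `x_i ↦ (x_0 - (1 - ζ) x_{i+1})^d + t G_i(x)` (`x_{N+1} = x_0`) of `ℙ^N` has
   the full Dynamical Mordell-Lang property.

(The starting result `OnePreperiodicMember` is about the orbit of one point `x(t)` such that `x(α)` is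
preperiodic for `F_α`. Here there is one exceptional set for all points of `ℙ^N(ℂ)`.)

Proof. The data of strict critical finiteness of `F_α` are polynomial identities over a finitely
generated ring, so no critical point of the reduction of `F_α` is periodic, at all places at which
finitely many numbers are integral. If the value at `t` of the minimal polynomial of `α` has a large
prime factor, then there is such a place at which `t` is near to `α`, so that `F_t` and `F_α` have the
same reduction, and `p`-adic interpolation applies to the orbits of all points. The other `t` are few.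
-/

set_option autoImplicit false

open MvPolynomial Pool.Agent.K6.H53.DM Pool.Agent.K6.H53.DML

namespace Pool.Agent.Results.MP_b15c9e_ag.AlmostAllPerturbations

/-- There are `C` and `r` such that the set `A` contains at most `C (log H)^r` of the rational numbers
with denominator `v` and numerator at most `H` in absolute value, for all `v ≤ H`, `H ≥ 2`. -/
def Sparse (A : Set ℂ) : Prop :=
  ∃ C r : ℕ, ∀ H v : ℕ, 2 ≤ H → v ≤ H → ∀ T : Finset ℚ,
    (∀ t ∈ T, t.den = v ∧ |t.num| ≤ H ∧ (t : ℂ) ∈ A) → (T.card : ℝ) ≤ C * Real.log H ^ r

/-- **Almost all rational members of a family with one strictly critically finite member.** -/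
theorem result :
    (∀ (N d : ℕ), 1 ≤ d → ∀ F : Fin (N + 1) → MvPolynomial (Fin (N + 1)) (Polynomial ℂ),
      (∀ i, (F i).IsHomogeneous d) → ∀ α : ℂ, IsAlgebraic ℚ α →
      (CriticallyFinite (member F α) → Sparse {t | ¬ FullDML (member F t)}) ∧
      ∀ x : Fin (N + 1) → Polynomial ℂ, CriticallyFiniteFor (member F α) (start x α) →
        Sparse {t | ¬ DMLAt (member F t) (start x t)}) ∧
    ∀ (N d : ℕ), 1 ≤ d → ∀ ζ : ℂ, ζ ^ d = 1 → ζ ≠ 1 →
      ∀ G : Fin (N + 1) → MvPolynomial (Fin (N + 1)) ℂ, (∀ i, (G i).IsHomogeneous d) →
        ∃ c r : ℕ, ∀ H : ℕ, 2 ≤ H → ∀ T : Finset ℤ,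
          (∀ t ∈ T, |t| ≤ H ∧
            ¬ FullDML fun i => (X 0 - C (1 - ζ) * X (i + 1)) ^ d + C (t : ℂ) * G i) →
          (T.card : ℝ) ≤ c * Real.log H ^ r := by
  have main : ∀ (N d : ℕ), 1 ≤ d →
      ∀ F : Fin (N + 1) → MvPolynomial (Fin (N + 1)) (Polynomial ℂ),
      (∀ i, (F i).IsHomogeneous d) → ∀ α : ℂ, IsAlgebraic ℚ α →
      (CriticallyFinite (member F α) → Sparse {t | ¬ FullDML (member F t)}) ∧
      ∀ x : Fin (N + 1) → Polynomial ℂ, CriticallyFiniteFor (member F α) (start x α) →
        Sparse {t | ¬ DMLAt (member F t) (start x t)} := by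
    intro N d hd F hF α hα
    refine ⟨fun h => ?_, fun x h => ?_⟩
    · obtain ⟨c, r, hc⟩ := sparse_of_near (fun t => FullDML (member F t)) α hα
        (holdsNear_full hd F hF α h)
      exact ⟨c, r, fun H v hH hv T hT => hc H v hH hv T hT⟩
    · obtain ⟨c, r, hc⟩ := sparse_of_near (fun t => DMLAt (member F t) (start x t)) α hα
        (holdsNear_at hd F hF x α h)
      exact ⟨c, r, fun H v hH hv T hT => hc H v hH hv T hT⟩
  refine ⟨main, fun N d hd ζ hζ hζ1 G hG => ?_⟩
  have hA : ∀ i : Fin (N + 1), ((X 0 - C (1 - ζ) * X (i + 1)) ^ d :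
      MvPolynomial (Fin (N + 1)) ℂ).IsHomogeneous d := by
    intro i
    have h1 : (X 0 - C (1 - ζ) * X (i + 1) : MvPolynomial (Fin (N + 1)) ℂ).IsHomogeneous 1 :=
      (isHomogeneous_X _ _).sub (by
        have := (isHomogeneous_C (Fin (N + 1)) (1 - ζ)).mul (isHomogeneous_X ℂ (i + 1))
        rwa [zero_add] at this)
    have h2 := h1.pow d
    rwa [one_mul] at h2
  let F : Fin (N + 1) → MvPolynomial (Fin (N + 1)) (Polynomial ℂ) := fun i =>
    map Polynomial.C ((X 0 - C (1 - ζ) * X (i + 1)) ^ d) +
      C Polynomial.X * map Polynomial.C (G i)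
  have hmem : ∀ u : ℂ, member F u =
      fun i => (X 0 - C (1 - ζ) * X (i + 1)) ^ d + C u * G i := by
    intro u
    funext i
    have h1 : (Polynomial.evalRingHom u).comp (Polynomial.C : ℂ →+* Polynomial ℂ) =
        RingHom.id ℂ := RingHom.ext fun a => by simp
    change map (Polynomial.evalRingHom u) (map Polynomial.C ((X 0 - C (1 - ζ) * X (i + 1)) ^ d) +
      C Polynomial.X * map Polynomial.C (G i)) = _
    rw [map_add, map_mul, map_map, map_map, h1, map_id, map_id, map_C,
      Polynomial.coe_evalRingHom, Polynomial.eval_X]
  have hF : ∀ i, (F i).IsHomogeneous d := by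
    intro i
    apply IsHomogeneous.add
    · exact (hA i).map _
    · have := (isHomogeneous_C (Fin (N + 1)) (Polynomial.X : Polynomial ℂ)).mul
        ((hG i).map Polynomial.C)
      rwa [zero_add] at this
  have h0 : CriticallyFinite (member F 0) := by
    rw [hmem]
    have h2 : (fun i => (X 0 - C (1 - ζ) * X (i + 1)) ^ d + C (0 : ℂ) * G i) =
        fun i => ((X 0 - C (1 - ζ) * X (i + 1)) ^ d : MvPolynomial (Fin (N + 1)) ℂ) := by
      funext i
      rw [C_0, zero_mul, add_zero]
    rw [h2]
    exact fs_finite hd hζ hζ1
  obtain ⟨c, r, hc⟩ := (main N d hd F hF 0 isAlgebraic_zero).1 h0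
  refine ⟨c, r, fun H hH T hT => ?_⟩
  have h1 := hc H 1 hH (by omega) (T.image fun t : ℤ => (t : ℚ)) (by
    intro q hq
    obtain ⟨t, ht, rfl⟩ := Finset.mem_image.1 hq
    obtain ⟨h3, h4⟩ := hT t ht
    refine ⟨Rat.den_intCast t, ?_, ?_⟩
    · rw [Rat.num_intCast]
      exact h3
    · change ¬ FullDML (member F (((t : ℚ)) : ℂ))
      rw [hmem, Rat.cast_intCast]
      exact h4)
  rwa [Finset.card_image_of_injective _ Int.cast_injective] at h1

end Pool.Agent.Results.MP_b15c9e_ag.AlmostAllPerturbations
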