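import Pool.Agent.K6.H53.DM.Defs

/-!
# MP_b15c9e_ag: the full Dynamical Mordell-Lang property of all but finitely many members of a family
over a number field, if three members are strictly critically finite

**Families.** Let `F_{t,0}, …, F_{t,N}` be forms of degree `d ≥ 1` in `N + 1` variables whose
coefficients are complex polynomials in `t` (`member F t`), let `x_0, …, x_N` be complex polynomials in
`t` (`start x t`). So `F_t` is a one-parameter family of rational self-maps of `ℙ^N`, most of them
endomorphisms, and `x(t)` is a curve of points.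

**Strictly critically finite maps** (Ueda, Jonsson; see the starting result `StrictlyCriticallyFinite`).
An endomorphism `Φ` of `ℙ^N` with critical locus `C` is strictly critically finite outside a closed set
`B` if there are closed sets `ℙ^N = D_0, D_1, …, D_k = B` with `Φ(D_i) ⊆ D_i`, such that for all `i < k`
some iterate of `Φ` maps `D_i ∩ C` into `D_{i+1}`, and `Φ^{-1}(B) ⊆ B`. If `B = ∅` then `Φ` is called
strictly critically finite.

**Theorem.** Let `E ⊂ ℂ` be a number field, `m ≥ 1`, and let `b_1, b_2, b_3` be three different points of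
the projective line over the algebraic numbers.

1. For all but finitely many `t` in `E` such that for each `i` the member `F_{σ(b_i)}` is strictly
   critically finite for some automorphism `σ` of `ℂ` over `E`, or `t` is integral with respect to `b_i`
   outside `m`: the member `F_t` is an endomorphism of `ℙ^N` with the full Dynamical Mordell-Lang
   property, for all complex points and all closed subsets of `ℙ^N`. In particular: if three members at
   algebraic numbers are strictly critically finite, then in each number field all but finitely many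
   members have the full property.
2. The same for the orbit of `x(t)`, if `F_{σ(b_i)}` is only strictly critically finite outside some
   `B_i` which does not contain `x(σ(b_i))` (for example, `B_i` is the hyperplane at infinity of a
   polynomial map). Here the finite set depends on the curve of points.
3. An explicit example for 1: for all `N`, all `d ≥ 4`, ARBITRARY forms `G_0, …, G_N` of degree `d` with
   coefficients in `ℂ[t]` and every number field `E`, the endomorphism
   `x_i ↦ (x_0 - (1 - t) x_{i+1})^d + (1 + t + … + t^(d-1)) G_i(t, x)` (`x_{N+1} = x_0`) has the full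
   Dynamical Mordell-Lang property for all but finitely many `t` in `E`.

The starting results concern single orbits in families with preperiodic members, almost all maps in
boxes, and strictly critically finite maps themselves; here all but finitely many members of a family
have the full property.

Proof. The containments which define strict critical finiteness are polynomial identities over a
finitely generated ring, so they hold for the reduction at each place at which finitely many numbers are
integral; hence no critical point of the reduction is periodic (outside `B`). If `t` is near to `b_i` at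
such a place, then `F_t` has the reduction of `F_{b_i}`, and `p`-adic interpolation applies to the orbits
of all points. By the unit equation in two variables all but finitely many `t` are near to one of the
`b_i` at such a place.
-/

set_option autoImplicit false

open MvPolynomial Pool.Agent.K6.H53.DM Pool.Agent.K6.H53.DML

namespace Pool.Agent.Results.MP_b15c9e_ag.CriticallyFiniteMembers

/-- `t` is integral outside `m` with respect to the point `b` of the projective line (`none` is the
point at infinity). -/
def IntegralAt (m : ℕ) : Option ℂ → ℂ → Prop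
  | none, t => ∃ k : ℕ, IsIntegral ℤ ((m : ℂ) ^ k * t)
  | some z, t => ∃ k : ℕ, IsIntegral ℤ ((m : ℂ) ^ k * (t - z)⁻¹)

/-- **All but finitely many members over a number field have the full Dynamical Mordell-Lang property if
three members are strictly critically finite.** -/
theorem result :
    (∀ (N d : ℕ), 1 ≤ d → ∀ F : Fin (N + 1) → MvPolynomial (Fin (N + 1)) (Polynomial ℂ),
      (∀ i, (F i).IsHomogeneous d) → ∀ x : Fin (N + 1) → Polynomial ℂ,
      ∀ (E : IntermediateField ℚ ℂ) [FiniteDimensional ℚ E] (m : ℕ), 1 ≤ m →
        ∀ b : Fin 3 → Option ℂ, Function.Injective b → (∀ i, ∀ z ∈ b i, IsAlgebraic ℚ z) →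
        {t : ℂ | t ∈ E ∧ (∀ i, IntegralAt m (b i) t ∨
          ∃ z ∈ b i, ∃ σ : ℂ ≃ₐ[E] ℂ, CriticallyFinite (member F (σ z))) ∧
          ¬ FullDML (member F t)}.Finite ∧
        {t : ℂ | t ∈ E ∧ (∀ i, IntegralAt m (b i) t ∨
          ∃ z ∈ b i, ∃ σ : ℂ ≃ₐ[E] ℂ,
            CriticallyFiniteFor (member F (σ z)) (start x (σ z))) ∧
          ¬ DMLAt (member F t) (start x t)}.Finite) ∧
    ∀ (N d : ℕ), 4 ≤ d → ∀ G : Fin (N + 1) → MvPolynomial (Fin (N + 1)) (Polynomial ℂ),
      (∀ i, (G i).IsHomogeneous d) →
      ∀ (E : IntermediateField ℚ ℂ) [FiniteDimensional ℚ E],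
        {t : ℂ | t ∈ E ∧ ¬ FullDML (member (perturbed d G) t)}.Finite := by
  have hAv : ∀ m (o : Option ℂ) t, IntegralAt m o t ↔ Pool.Agent.Y199.DM.Avoids m o t := by
    rintro m (_ | z) t <;> rfl
  have main : ∀ (N d : ℕ), 1 ≤ d →
      ∀ F : Fin (N + 1) → MvPolynomial (Fin (N + 1)) (Polynomial ℂ),
      (∀ i, (F i).IsHomogeneous d) → ∀ x : Fin (N + 1) → Polynomial ℂ,
      ∀ (E : IntermediateField ℚ ℂ) [FiniteDimensional ℚ E] (m : ℕ), 1 ≤ m →
        ∀ b : Fin 3 → Option ℂ, Function.Injective b → (∀ i, ∀ z ∈ b i, IsAlgebraic ℚ z) →
        {t : ℂ | t ∈ E ∧ (∀ i, IntegralAt m (b i) t ∨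
          ∃ z ∈ b i, ∃ σ : ℂ ≃ₐ[E] ℂ, CriticallyFinite (member F (σ z))) ∧
          ¬ FullDML (member F t)}.Finite ∧
        {t : ℂ | t ∈ E ∧ (∀ i, IntegralAt m (b i) t ∨
          ∃ z ∈ b i, ∃ σ : ℂ ≃ₐ[E] ℂ,
            CriticallyFiniteFor (member F (σ z)) (start x (σ z))) ∧
          ¬ DMLAt (member F t) (start x t)}.Finite := by
    intro N d hd F hF x E _ m hm b hb halg
    constructor
    · refine (finite_of_near (fun t => FullDML (member F t)) E m hm b hb halg).subset ?_
      rintro t ⟨htE, ht, hbad⟩
      refine ⟨htE, fun i => ?_, hbad⟩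
      rcases ht i with h | ⟨z, hz, σ, h⟩
      · exact Or.inl ((hAv _ _ _).1 h)
      · exact Or.inr ⟨z, hz, σ, holdsNear_full hd F hF _ h⟩
    · refine (finite_of_near (fun t => DMLAt (member F t) (start x t)) E m hm b hb
        halg).subset ?_
      rintro t ⟨htE, ht, hbad⟩
      refine ⟨htE, fun i => ?_, hbad⟩
      rcases ht i with h | ⟨z, hz, σ, h⟩
      · exact Or.inl ((hAv _ _ _).1 h)
      · exact Or.inr ⟨z, hz, σ, holdsNear_at hd F hF x _ h⟩
  refine ⟨main, ?_⟩
  intro N d hd G hG E _
  have hd0 : d ≠ 0 := by omega
  have hζ := Complex.isPrimitiveRoot_exp d hd0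
  set ζ : ℂ := Complex.exp (2 * Real.pi * Complex.I / d) with hζdef
  let b : Fin 3 → Option ℂ := fun i => some (ζ ^ ((i : ℕ) + 1))
  have hb : Function.Injective b := by
    intro i j hij
    have h1 : ζ ^ ((i : ℕ) + 1) = ζ ^ ((j : ℕ) + 1) := Option.some.inj hij
    have h2 := hζ.pow_inj (by omega) (by omega) h1
    exact Fin.ext (by omega)
  have hpow : ∀ i : Fin 3, (ζ ^ ((i : ℕ) + 1)) ^ d = 1 := by
    intro i
    rw [← pow_mul, mul_comm, pow_mul, hζ.pow_eq_one, one_pow]
  have hne : ∀ i : Fin 3, ζ ^ ((i : ℕ) + 1) ≠ 1 := by
    intro i h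
    have h1 := (hζ.pow_eq_one_iff_dvd _).1 h
    have := Nat.le_of_dvd (by omega) h1
    omega
  have h := (main N d (by omega) (perturbed d G) (perturbed_homogeneous G hG) (fun _ => 0) E 1
    le_rfl b hb (by
      intro i z hz
      have hz' : z = ζ ^ ((i : ℕ) + 1) := (Option.mem_some_iff.1 hz).symm
      rw [hz']
      refine IsIntegral.isAlgebraic ?_
      exact IsIntegral.of_pow (n := d) (by omega) (by rw [hpow i]; exact isIntegral_one))).1
  refine h.subset ?_
  rintro t ⟨htE, hbad⟩
  refine ⟨htE, fun i => Or.inr ⟨ζ ^ ((i : ℕ) + 1), rfl, AlgEquiv.refl, ?_⟩, hbad⟩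
  change CriticallyFinite (member (perturbed d G) (ζ ^ ((i : ℕ) + 1)))
  rw [member_perturbed d G (hpow i) (hne i)]
  exact fs_finite (by omega) (hpow i) (hne i)

end Pool.Agent.Results.MP_b15c9e_ag.CriticallyFiniteMembers
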