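import Pool.Agent.K6.H53.GP.Fn

/-!
# MP_b15c9e_ag: a gap principle for all endomorphisms of projective space over number fields

Let `f = (f_0, …, f_N)` be forms of degree `d ≥ 2` with algebraic coefficients and without a common
zero in `ℂ^{N+1} ∖ 0`, that is, an endomorphism of `ℙ^N` over a number field, let `K` be a number field
and let `V` be a closed subset of `ℙ^N` over `ℂ`. We write `R(a) = {n : f^n(a) ∈ V}`. There is no
condition on the periodic points, on the critical points or on the reduction of `f`.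

**(1)** Let `dim V ≤ 1`. There is a number `s` with the following properties.
* There is a `C` such that for all points `a ∈ ℙ^N(K)` the return set `R(a)`
  - is a finite union of arithmetic progressions and contains an infinite one, or
  - is a union of `s` sets `T_1, …, T_s` such that `n ≥ 2m - C` for all `m < n` in the same `T_i`.
* For all `C`, also for negative ones, the same holds for all points `a ∈ ℙ^N(K)` but finitely many.

**(2)** The same holds for all endomorphisms of `ℙ^2` and all closed subsets `V` of `ℙ^2`.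

**(3)** Let `X` be a closed subset of `ℙ^N` of dimension at most two with `f(X) ⊆ X`, and let `V` be
arbitrary. Then there are such sets `T_i`, with the same uniformity, with `R(a) = A ∪ T_1 ∪ … ∪ T_s` for a
finite union `A` of arithmetic progressions, for the points `a ∈ X(K)`. (The polarized endomorphisms of
projective surfaces are restrictions of endomorphisms of `ℙ^N`.)

**(4)** If `T_1, …, T_s` are sets as in (1) then their union has at most `s log_2 x + C'` elements
`n ≤ x`, where `C'` depends only on `s` and `C`.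

So for curves, and for all closed subsets of surfaces, the Dynamical Mordell-Lang property holds up to a
set with `O(log x)` elements up to `x`, with constants that do not depend on the starting point. For
instance, for each curve `V` there are `s` and `C'` such that at most `s log_2 x + C'` of the first `x`
points of the orbit of `a` are in `V`, for all `a ∈ ℙ^N(K)` whose return set contains no infinite
arithmetic progression; and for every `x` this number is at most `s` for all but finitely many of these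
points `a`.

The proof. Let `p` be the prime ideal of an irreducible component `Z` of `V` over `K`. Let `G` be a form
such that `G ∘ f^k` is not in `p`. The main point is the bound
`h(y) ≤ C d^k` for all `y ∈ Z(K)` with `G(f^k(y)) = 0`, with a constant `C` that does not depend on `k`.
For two coordinates that are algebraically independent on `Z` we choose a maximal linearly independent
family `b_1 = 1, …, b_D` of functions on the cone of `Z` over `K[X_i, X_j]`; for a common denominator `a`
the functions `a X_l` act on this family by matrices over `K[X_i, X_j]`, and the determinant of the matrix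
of `G(f^k(a X))` is a polynomial `≠ 0` with local norms at most `C_v^{d^k}` that vanishes at
`(y_i, y_j)`, since `(b_1(y), …, b_D(y))` is an eigenvector. This bounds the height of `(y_i : y_j)`.
On the other hand, `h(f^n(a)) ≥ d^{n-M}` for `n ≥ M` if the orbit of `a ∈ ℙ^N(K)` is infinite, by the
Nullstellensatz and the theorem of Northcott, where `M` does not depend on `a`. If `Z` is not periodic
then for each `k ≥ 1` there is a `G` in a finite set of generators of `p` with `G ∘ f^k ∉ p`; so if
`m` and `n = m + k` are returns to `Z` then `d^{m-M} ≤ h(f^m(a)) ≤ C d^{n-m}`, which is the gap. If `Z` is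
periodic and the orbit meets `Z` then it returns to each closed subset of dimension at most one
periodically, by the bound above for fixed `k`.
-/

set_option autoImplicit false

open MvPolynomial

namespace Pool.Agent.Results.MP_b15c9e_ag.HeightGapPrinciple

variable {N : ℕ}

/-- The self-map of `ℂ^{N+1}` given by `N + 1` polynomials. -/
noncomputable def coneMap (f : Fin (N + 1) → MvPolynomial (Fin (N + 1)) ℂ)
    (x : Fin (N + 1) → ℂ) : Fin (N + 1) → ℂ :=
  fun i => eval x (f i)

/-- The polynomials have no common zero but `0`. -/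
def NoCommonZero (f : Fin (N + 1) → MvPolynomial (Fin (N + 1)) ℂ) : Prop :=
  ∀ x : Fin (N + 1) → ℂ, coneMap f x = 0 → x = 0

/-- All coefficients are algebraic numbers. -/
def AlgCoeff (f : Fin (N + 1) → MvPolynomial (Fin (N + 1)) ℂ) : Prop :=
  ∀ i κ, IsAlgebraic ℚ (coeff κ (f i))

/-- An endomorphism of `ℙ^N` of degree `d` with algebraic coefficients. -/
def Endo (d : ℕ) (f : Fin (N + 1) → MvPolynomial (Fin (N + 1)) ℂ) : Prop :=
  (∀ i, (f i).IsHomogeneous d) ∧ NoCommonZero f ∧ AlgCoeff f

/-- All elements of the set are forms. -/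
def Forms (S : Set (MvPolynomial (Fin (N + 1)) ℂ)) : Prop :=
  ∀ g ∈ S, ∃ e : ℕ, g.IsHomogeneous e

/-- The closed subset of `ℙ^N` given by a set of forms (as a set of nonzero vectors). -/
def zeroSet (S : Set (MvPolynomial (Fin (N + 1)) ℂ)) : Set (Fin (N + 1) → ℂ) :=
  {x | x ≠ 0 ∧ ∀ g ∈ S, eval x g = 0}

/-- The closed subset of `ℙ^N` given by a set of forms has dimension at most `m`: any `m + 2`
homogeneous coordinates satisfy a polynomial equation on its cone. -/
def DimLe (m : ℕ) (S : Set (MvPolynomial (Fin (N + 1)) ℂ)) : Prop :=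
  ∀ i : Fin (m + 2) → Fin (N + 1), ∃ P : MvPolynomial (Fin (m + 2)) ℂ, P ≠ 0 ∧
    ∀ z ∈ zeroSet S, eval (fun t => z (i t)) P = 0

/-- The set of all `n` such that `f^n(a)` is in the closed subset. -/
def returnSet (f : Fin (N + 1) → MvPolynomial (Fin (N + 1)) ℂ)
    (S : Set (MvPolynomial (Fin (N + 1)) ℂ)) (a : Fin (N + 1) → ℂ) : Set ℕ :=
  {n | (coneMap f)^[n] a ∈ zeroSet S}

/-- A finite union of arithmetic progressions `{a + k n}`, where `k = 0` is allowed. -/
def FiniteUnionAP (A : Set ℕ) : Prop :=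
  ∃ T : Finset (ℕ × ℕ), A = {n : ℕ | ∃ q ∈ T, ∃ m : ℕ, n = q.1 * m + q.2}

/-- A finite union of arithmetic progressions which contains an infinite one. -/
def InfiniteUnionAP (A : Set ℕ) : Prop :=
  FiniteUnionAP A ∧ ∃ n k : ℕ, 0 < k ∧ ∀ t, n + k * t ∈ A

/-- A union of `s` sets such that `n ≥ 2 m - C` for all elements `m < n` of the same set. -/
def Gapped (s : ℕ) (C : ℤ) (R : Set ℕ) : Prop :=
  ∃ T : Fin s → Set ℕ, R = ⋃ i, T i ∧
    ∀ i, ∀ m ∈ T i, ∀ n ∈ T i, m < n → 2 * (m : ℤ) ≤ n + C

/-- There is an `s` such that `Q s C a` holds with one constant `C` for all `a` in `X` with coordinates in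
`K`, and with all constants `C` for all `a` in `X` with coordinates in `K` but finitely many up to
scaling. -/
def Uniformly (K : IntermediateField ℚ ℂ) (X : Set (Fin (N + 1) → ℂ))
    (Q : ℕ → ℤ → (Fin (N + 1) → ℂ) → Prop) : Prop :=
  ∃ s : ℕ, (∃ C : ℤ, ∀ a ∈ X, (∀ i, a i ∈ K) → Q s C a) ∧
    ∀ C : ℤ, ∃ E : Finset (Fin (N + 1) → ℂ), ∀ a ∈ X, (∀ i, a i ∈ K) →
      (∀ e ∈ E, ∀ c : ℂ, a ≠ c • e) → Q s C a

/-! ### The proof -/

open Pool.Agent.K6.H53.GP

theorem closed (S : Set (MvPolynomial (Fin (N + 1)) ℂ)) (hS : Forms S) : Closed (zeroSet S) where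
  ne z hz := hz.1
  smul z hz c hc := by
    refine ⟨fun h => hz.1 ?_, fun g hg => ?_⟩
    · funext i
      exact (mul_eq_zero.1 (congrFun h i)).resolve_left hc
    · obtain ⟨e, he⟩ := hS g hg
      have h1 := aeval_scale g he c z
      have h2 : aeval z g = eval z g := rfl
      rw [h2, hz.2 g hg, mul_zero] at h1
      exact h1
  eqs := ⟨S, rfl⟩

theorem curve_of {K : Type} [Field K]
    {I p : Ideal (MvPolynomial (Fin (N + 1)) K)} (hI : HomI I) (hp : p ∈ I.minimalPrimes)
    (hrel : ∀ i : Fin 3 → Fin (N + 1), ∃ P : MvPolynomial (Fin 3) K, P ≠ 0 ∧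
      aeval (fun t => (X (i t) : MvPolynomial (Fin (N + 1)) K)) P ∈ I) : Curve p where
  prime := hp.1.1
  hom := min_hom hI hp
  rel l i j := by
    obtain ⟨P, hP, hPI⟩ := hrel ![l, i, j]
    refine ⟨P, hP, hp.1.2 ?_⟩
    have h1 : (![X l, X i, X j] : Fin 3 → MvPolynomial (Fin (N + 1)) K) =
        fun t => X ((![l, i, j] : Fin 3 → Fin (N + 1)) t) := by
      funext t
      fin_cases t <;> rfl
    rw [h1]
    exact hPI

theorem part1 {d : ℕ} (hd : 2 ≤ d) (f : Fin (N + 1) → MvPolynomial (Fin (N + 1)) ℂ) (hf : Endo d f)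
    (S : Set (MvPolynomial (Fin (N + 1)) ℂ)) (hS : Forms S) (hdim : DimLe 1 S)
    (K₀ : IntermediateField ℚ ℂ) (hK₀ : FiniteDimensional ℚ K₀) :
    Uniformly K₀ {x | x ≠ 0} fun s C a =>
      InfiniteUnionAP (returnSet f S a) ∨ Gapped s C (returnSet f S a) := by
  classical
  obtain ⟨hhom, hno, halg⟩ := hf
  obtain ⟨K, hKK, hK, F, hF⟩ := field_of_def f halg K₀ hK₀
  have hV := closed S hS
  have hIhom : HomI (⊥ : Ideal (MvPolynomial (Fin (N + 1)) K)) := by
    intro P hP m
    rw [Ideal.mem_bot] at hP ⊢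
    rw [hP, map_zero]
  have hnf : NumberField K := { to_charZero := inferInstance, to_finiteDimensional := hK }
  have hrel : ∀ i : Fin 3 → Fin (N + 1), ∃ P : MvPolynomial (Fin 3) K, P ≠ 0 ∧
      aeval (fun t => (X (i t) : MvPolynomial (Fin (N + 1)) K)) P ∈ idl (K := K) (zeroSet S) :=
    fun i => idl_rel i (hdim i)
  obtain ⟨s, ⟨C, hC⟩, hE⟩ := core hd f hhom (fun x hx => hno x (funext hx)) K hK F hF (zeroSet S) hV ⊥
    (fun G hG => by
      rw [Ideal.mem_bot] at hG ⊢
      rw [hG, map_zero])
    (fun q hq => Or.inr fun p hp => by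
      have hq' : HomI q := min_hom hIhom hq
      refine curve_of (sup_hom hq' (idl_hom hV.smul)) hp fun i => ?_
      obtain ⟨P, hP, hPI⟩ := hrel i
      exact ⟨P, hP, le_sup_right (a := q) hPI⟩) {x | x ≠ 0} (fun x hx => by
      refine ⟨fun h => hx ?_, fun P hP => ?_⟩
      · funext i
        rw [h]
        exact map_zero _
      · rw [Ideal.mem_bot] at hP
        rw [hP, map_zero])
  -- the set of the components which are contained in `V`
  have key : ∀ (a : Fin (N + 1) → ℂ) (s : ℕ) (C : ℤ), a ≠ 0 → (∀ i, a i ∈ K) →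
      ((FUAP {n | (fun z : Fin (N + 1) → ℂ => fun i => eval z (f i))^[n] a ∈ zeroSet S} ∧
        ∃ n k : ℕ, 0 < k ∧ ∀ t,
          (fun z : Fin (N + 1) → ℂ => fun i => eval z (f i))^[n + k * t] a ∈ zeroSet S) ∨
        ∃ (A : Set ℕ) (T : Fin s → Set ℕ), FUAP A ∧
        ((∀ q ∈ (⊥ : Ideal (MvPolynomial (Fin (N + 1)) K)).minimalPrimes,
          ¬ idl (zeroSet S) ≤ q) → A = ∅) ∧
        {n | (fun z : Fin (N + 1) → ℂ => fun i => eval z (f i))^[n] a ∈ zeroSet S} = A ∪ ⋃ i, T i ∧
        ∀ i, ∀ m ∈ T i, ∀ n ∈ T i, m < n → 2 * (m : ℤ) ≤ n + C) →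
      InfiniteUnionAP (returnSet f S a) ∨ Gapped s C (returnSet f S a) := by
    intro a s C ha haK h
    rcases h with h | ⟨A, T, hA, hA0, hR, hT⟩
    · exact Or.inl h
    by_cases hbot : idl (K := K) (zeroSet S) ≤ ⊥
    · -- all rational points are in `V`
      left
      have h1 : ∀ n, n ∈ returnSet f S a := by
        intro n
        change (coneMap f)^[n] a ∈ zeroSet S
        have h2 : (coneMap f)^[n] a ≠ 0 := by
          induction n with
          | zero => exact ha
          | succ n ih =>
            rw [Function.iterate_succ_apply']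
            exact fun h => ih (hno _ h)
        obtain ⟨x, hx⟩ : ∃ x : Fin (N + 1) → K, a = fun i => algebraMap K ℂ (x i) :=
          ⟨fun i => ⟨a i, haK i⟩, rfl⟩
        have h3 : (coneMap f)^[n] a = fun i => algebraMap K ℂ (itv F x n i) := by
          rw [hx]
          exact orbit_map f F hF x n
        rw [h3] at h2 ⊢
        refine (hV.mem (K := K) fun h0 => h2 ?_).2 fun P hP => ?_
        · funext i
          rw [h0]
          exact map_zero _
        · have := hbot hP
          rw [Ideal.mem_bot] at this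
          rw [this, map_zero]
      refine ⟨⟨{(1, 0)}, ?_⟩, 0, 1, one_pos, fun t => h1 _⟩
      ext n
      exact ⟨fun _ => ⟨(1, 0), by simp, n, by simp⟩, fun _ => h1 n⟩
    · right
      have hAe : A = ∅ := by
        apply hA0
        intro q hq
        rw [Ideal.minimalPrimes_eq_subsingleton_self] at hq
        rw [Set.mem_singleton_iff.1 hq]
        exact hbot
      refine ⟨T, ?_, hT⟩
      rw [hAe, Set.empty_union] at hR
      exact hR
  refine ⟨s, ⟨C, fun a ha haK => ?_⟩, fun C => ?_⟩
  · exact key a s C ha (fun i => hKK (haK i)) (hC a ha fun i => hKK (haK i))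
  · obtain ⟨E, hE'⟩ := hE C
    exact ⟨E, fun a ha haK haE => key a s C ha (fun i => hKK (haK i))
      (hE' a ha (fun i => hKK (haK i)) haE)⟩

theorem part2 {d : ℕ} (hd : 2 ≤ d) (f : Fin (2 + 1) → MvPolynomial (Fin (2 + 1)) ℂ) (hf : Endo d f)
    (S : Set (MvPolynomial (Fin (2 + 1)) ℂ)) (hS : Forms S)
    (K₀ : IntermediateField ℚ ℂ) (hK₀ : FiniteDimensional ℚ K₀) :
    Uniformly K₀ {x | x ≠ 0} fun s C a =>
      InfiniteUnionAP (returnSet f S a) ∨ Gapped s C (returnSet f S a) := by
  classical
  by_cases hne : ∃ g ∈ S, g ≠ 0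
  · refine part1 hd f hf S hS ?_ K₀ hK₀
    obtain ⟨g, hg, hg0⟩ := hne
    intro i
    by_cases hinj : Function.Injective i
    · have hbij : Function.Bijective i := Finite.injective_iff_bijective.1 hinj
      let e : Fin 3 ≃ Fin 3 := Equiv.ofBijective i hbij
      refine ⟨rename e.symm g, fun h => hg0 (rename_injective _ e.symm.injective (by
        rw [h, map_zero])), fun z hz => ?_⟩
      rw [eval_rename]
      have h1 : (fun t => z (i t)) ∘ e.symm = z := by
        funext t
        change z (e (e.symm t)) = z t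
        rw [Equiv.apply_symm_apply]
      rw [h1]
      exact hz.2 g hg
    · rw [Function.Injective] at hinj
      push Not at hinj
      obtain ⟨t, t', h, hne'⟩ := hinj
      refine ⟨X t - X t', sub_ne_zero.2 fun h' => hne' (X_injective h'), fun z _ => ?_⟩
      rw [map_sub, eval_X, eval_X, h, sub_self]
  · push Not at hne
    refine ⟨0, ⟨0, fun a ha _ => Or.inl ?_⟩, fun C => ⟨∅, fun a ha _ _ => Or.inl ?_⟩⟩
    all_goals
      have h1 : ∀ n, n ∈ returnSet f S a := by
        intro n
        refine ⟨?_, fun g hg => by rw [hne g hg, map_zero]⟩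
        induction n with
        | zero => exact ha
        | succ n ih =>
          rw [Function.iterate_succ_apply']
          exact fun h => ih (hf.2.1 _ h)
      refine ⟨⟨{(1, 0)}, ?_⟩, 0, 1, one_pos, fun t => h1 _⟩
      ext n
      exact ⟨fun _ => ⟨(1, 0), by simp, n, by simp⟩, fun _ => h1 n⟩

theorem part3 {d : ℕ} (hd : 2 ≤ d) (f : Fin (N + 1) → MvPolynomial (Fin (N + 1)) ℂ) (hf : Endo d f)
    (X₀ : Set (MvPolynomial (Fin (N + 1)) ℂ)) (hX₀ : Forms X₀) (hdim : DimLe 2 X₀)
    (hinv : ∀ x ∈ zeroSet X₀, coneMap f x ∈ zeroSet X₀)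
    (S : Set (MvPolynomial (Fin (N + 1)) ℂ)) (hS : Forms S)
    (K₀ : IntermediateField ℚ ℂ) (hK₀ : FiniteDimensional ℚ K₀) :
    Uniformly K₀ (zeroSet X₀) fun s C a => ∃ A R : Set ℕ,
      FiniteUnionAP A ∧ Gapped s C R ∧ returnSet f S a = A ∪ R := by
  classical
  obtain ⟨hhom, hno, halg⟩ := hf
  obtain ⟨K, hKK, hK, F, hF⟩ := field_of_def f halg K₀ hK₀
  have hV := closed S hS
  have hX := closed X₀ hX₀
  have hnf : NumberField K := { to_charZero := inferInstance, to_finiteDimensional := hK }
  have hIhom : HomI (idl (K := K) (zeroSet X₀)) := idl_hom hX.smul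
  have hrel : ∀ i : Fin 4 → Fin (N + 1), ∃ P : MvPolynomial (Fin 4) K, P ≠ 0 ∧
      aeval (fun t => (X (i t) : MvPolynomial (Fin (N + 1)) K)) P ∈ idl (K := K) (zeroSet X₀) :=
    fun i => idl_rel i (hdim i)
  obtain ⟨s, ⟨C, hC⟩, hE⟩ := core hd f hhom (fun x hx => hno x (funext hx)) K hK F hF (zeroSet S) hV
    (idl (K := K) (zeroSet X₀)) (fun G hG y hy => by
      have h1 := hinv _ hy
      have h2 : coneMap f (fun i => algebraMap K ℂ (y i)) = fun i => algebraMap K ℂ (itv F y 1 i) :=
        orbit_map f F hF y 1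
      rw [h2] at h1
      have h3 := hG _ h1
      have h4 := eval_aeval_itv F y 1 G
      have h5 : itv F X 1 = F := by
        funext i
        simp only [itv]
        rw [aeval_X_left]
        rfl
      rw [h5, h3] at h4
      exact h4)
    (fun q hq => by
      by_cases hJq : idl (K := K) (zeroSet S) ≤ q
      · exact Or.inl hJq
      · refine Or.inr fun p hp => ?_
        have hq' : HomI q := min_hom hIhom hq
        obtain ⟨G, hGJ, hGq⟩ := SetLike.not_le_iff_exists.1 hJq
        refine curve_of (sup_hom hq' (idl_hom hV.smul)) hp fun i => ?_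
        obtain ⟨P, hP, hPI⟩ := drop q hq.1.1 (fun i => by
          obtain ⟨P, hP, hPI⟩ := hrel i
          exact ⟨P, hP, hq.1.2 hPI⟩) G hGq i
        refine ⟨P, hP, ?_⟩
        refine (sup_le_sup_left ?_ q : q ⊔ Ideal.span {G} ≤ q ⊔ idl (K := K) (zeroSet S)) hPI
        rw [Ideal.span_singleton_le_iff_mem]
        exact hGJ) (zeroSet X₀) (fun x hx => by
      refine ⟨fun h => hx.1 ?_, fun P hP => hP x hx⟩
      funext i
      rw [h]
      exact map_zero _)
  have key : ∀ (a : Fin (N + 1) → ℂ) (s : ℕ) (C : ℤ),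
      ((FUAP {n | (fun z : Fin (N + 1) → ℂ => fun i => eval z (f i))^[n] a ∈ zeroSet S} ∧
        ∃ n k : ℕ, 0 < k ∧ ∀ t,
          (fun z : Fin (N + 1) → ℂ => fun i => eval z (f i))^[n + k * t] a ∈ zeroSet S) ∨
        ∃ (A : Set ℕ) (T : Fin s → Set ℕ), FUAP A ∧
        ((∀ q ∈ (idl (K := K) (zeroSet X₀)).minimalPrimes,
          ¬ idl (zeroSet S) ≤ q) → A = ∅) ∧
        {n | (fun z : Fin (N + 1) → ℂ => fun i => eval z (f i))^[n] a ∈ zeroSet S} = A ∪ ⋃ i, T i ∧
        ∀ i, ∀ m ∈ T i, ∀ n ∈ T i, m < n → 2 * (m : ℤ) ≤ n + C) →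
      ∃ A R : Set ℕ, FiniteUnionAP A ∧ Gapped s C R ∧ returnSet f S a = A ∪ R := by
    intro a s C h
    rcases h with h | ⟨A, T, hA, -, hR, hT⟩
    · exact ⟨returnSet f S a, ∅, h.1, ⟨fun _ => ∅, by simp, fun i m hm => hm.elim⟩, by simp⟩
    · exact ⟨A, ⋃ i, T i, hA, ⟨T, rfl, hT⟩, hR⟩
  refine ⟨s, ⟨C, fun a ha haK => ?_⟩, fun C => ?_⟩
  · exact key a s C (hC a ha fun i => hKK (haK i))
  · obtain ⟨E, hE'⟩ := hE C
    exact ⟨E, fun a ha haK haE => key a s C (hE' a ha (fun i => hKK (haK i)) haE)⟩

theorem result :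
    -- (1) closed subsets of dimension at most one
    (∀ (N d : ℕ), 2 ≤ d → ∀ f : Fin (N + 1) → MvPolynomial (Fin (N + 1)) ℂ, Endo d f →
      ∀ S, Forms S → DimLe 1 S → ∀ K : IntermediateField ℚ ℂ, FiniteDimensional ℚ K →
        Uniformly K {x | x ≠ 0} fun s C a =>
          InfiniteUnionAP (returnSet f S a) ∨ Gapped s C (returnSet f S a)) ∧
    -- (2) all closed subsets of the projective plane
    (∀ d : ℕ, 2 ≤ d → ∀ f : Fin (2 + 1) → MvPolynomial (Fin (2 + 1)) ℂ, Endo d f →
      ∀ S, Forms S → ∀ K : IntermediateField ℚ ℂ, FiniteDimensional ℚ K →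
        Uniformly K {x | x ≠ 0} fun s C a =>
          InfiniteUnionAP (returnSet f S a) ∨ Gapped s C (returnSet f S a)) ∧
    -- (3) all closed subsets, and the points of an invariant closed set of dimension at most two
    (∀ (N d : ℕ), 2 ≤ d → ∀ f : Fin (N + 1) → MvPolynomial (Fin (N + 1)) ℂ, Endo d f →
      ∀ X₀, Forms X₀ → DimLe 2 X₀ → (∀ x ∈ zeroSet X₀, coneMap f x ∈ zeroSet X₀) →
      ∀ S, Forms S → ∀ K : IntermediateField ℚ ℂ, FiniteDimensional ℚ K →
        Uniformly K (zeroSet X₀) fun s C a => ∃ A R : Set ℕ,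
          FiniteUnionAP A ∧ Gapped s C R ∧ returnSet f S a = A ∪ R) ∧
    -- (4) the number of elements of the exceptional sets
    ∀ (s : ℕ) (C : ℤ), ∃ C' : ℕ, ∀ R : Set ℕ, Gapped s C R →
      ∀ x : ℕ, {n ∈ R | n ≤ x}.ncard ≤ s * Nat.log 2 x + C' := by
  refine ⟨fun N d hd f hf S hS hdim K hK => part1 hd f hf S hS hdim K hK,
    fun d hd f hf S hS K hK => part2 hd f hf S hS K hK,
    fun N d hd f hf X₀ hX₀ hdim hinv S hS K hK => part3 hd f hf X₀ hX₀ hdim hinv S hS K hK,
    fun s C => ?_⟩
  obtain ⟨C', hC'⟩ := count_union s C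
  refine ⟨C', fun R hR x => ?_⟩
  obtain ⟨T, rfl, hT⟩ := hR
  exact hC' T hT x

end Pool.Agent.Results.MP_b15c9e_ag.HeightGapPrinciple
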