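import Pool.Agent.K6.H53.DM.Count

/-!
# MP_b15c9e_ag: on every line through a strictly critically finite endomorphism all but countably many
endomorphisms have the full Dynamical Mordell-Lang property

Let `F_t` be a family of `N + 1` forms of degree `d ≥ 1` in `N + 1` variables whose coefficients are
complex polynomials in `t` (`member F t`), and let `x(t)` be a curve of points given by complex
polynomials (`start x t`). An endomorphism `Φ` of `ℙ^N` with critical locus `C` is called strictly
critically finite outside a closed set `B` if there are closed sets `ℙ^N = D_0, D_1, …, D_k = B` with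
`Φ(D_i) ⊆ D_i`, such that for all `i < k` some iterate of `Φ` maps `D_i ∩ C` into `D_{i+1}`, and
`Φ^{-1}(B) ⊆ B`; it is called strictly critically finite if `B = ∅`.

**Theorem.** Let `α` be ANY complex number.

1. If the member `F_α` is a strictly critically finite endomorphism then for all but countably many
   complex numbers `t` the member `F_t` is an endomorphism of `ℙ^N` with the full Dynamical Mordell-Lang
   property, for all complex points and all closed subsets. More precisely, the exceptional `t` are in
   every algebraically closed subfield of `ℂ` which contains `α` and the coefficients of the family. (For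
   instance all transcendental `t` are allowed if the family is defined over the algebraic numbers.)
2. The same for the orbit of `x(t)` if `F_α` is strictly critically finite outside a closed set `B` which
   does not contain the point `x(α)`.
3. For all `N` and `d`, all `d`-th roots of unity `ζ ≠ 1` and ALL systems `G_0, …, G_N` of forms of degree
   `d` over `ℂ`: for all but countably many complex numbers `u` the endomorphism
   `x_i ↦ (x_0 - (1 - ζ) x_{i+1})^d + u G_i(x)` (`x_{N+1} = x_0`) of `ℙ^N` has the full Dynamical
   Mordell-Lang property.

Fakhruddin's theorem on endomorphisms with algebraically independent coefficients is a special case of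
this: let `A` be a strictly critically finite map over the algebraic numbers (as in 3.), `c` the vector of
the coefficients of `Φ` and `a` the one of `A`; then `Φ = A + u G`, where `u = c_1 - a_1` and `G` has the
coefficients `(c_i - a_i) / (c_1 - a_1)`, and `u` is not in the algebraic closure of the field
generated by these. Here it is sufficient that one parameter is transcendental, on a line (or rational
curve) through a strictly critically finite endomorphism.

Proof. The data of strict critical finiteness of `F_α` are polynomial identities over a finitely
generated algebra over the field of definition `K`, and can be specialized to `K` without changing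
`F_α`. So no critical point of the reduction of `F_α` is periodic, at all places at which finitely many
elements of `K` are integral. Since `t` is transcendental over `K`, there is such a place, of large
residue characteristic, at which `t` is near to `α`, so that `F_t` and `F_α` have the same reduction, and
`p`-adic interpolation applies.
-/

set_option autoImplicit false

open MvPolynomial Pool.Agent.K6.H53.DM Pool.Agent.K6.H53.DML

namespace Pool.Agent.Results.MP_b15c9e_ag.VeryGeneralMembers

/-- **Very general members of families with a strictly critically finite member.** -/
theorem result :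
    (∀ (N d : ℕ), 1 ≤ d → ∀ F : Fin (N + 1) → MvPolynomial (Fin (N + 1)) (Polynomial ℂ),
      (∀ i, (F i).IsHomogeneous d) → ∀ α : ℂ,
      (CriticallyFinite (member F α) →
        {t : ℂ | ¬ FullDML (member F t)}.Countable ∧
        ∀ (K : Subfield ℂ) [IsAlgClosed K], (∀ i κ k, ((F i).coeff κ).coeff k ∈ K) → α ∈ K →
          ∀ t ∉ K, FullDML (member F t)) ∧
      ∀ x : Fin (N + 1) → Polynomial ℂ, CriticallyFiniteFor (member F α) (start x α) →
        {t : ℂ | ¬ DMLAt (member F t) (start x t)}.Countable ∧
        ∀ (K : Subfield ℂ) [IsAlgClosed K], (∀ i κ k, ((F i).coeff κ).coeff k ∈ K) →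
          (∀ i k, (x i).coeff k ∈ K) → α ∈ K → ∀ t ∉ K, DMLAt (member F t) (start x t)) ∧
    ∀ (N d : ℕ), 1 ≤ d → ∀ ζ : ℂ, ζ ^ d = 1 → ζ ≠ 1 →
      ∀ G : Fin (N + 1) → MvPolynomial (Fin (N + 1)) ℂ, (∀ i, (G i).IsHomogeneous d) →
        {u : ℂ | ¬ FullDML fun i => (X 0 - C (1 - ζ) * X (i + 1)) ^ d + C u * G i}.Countable := by
  refine ⟨fun N d hd F hF α => ⟨fun h => ⟨countable_full hd F hF α h, fun K _ hFK hα t ht =>
      transc_full K hd F hF hFK α hα h t ht⟩, fun x h => ⟨countable_at hd F hF x α h,
      fun K _ hFK hxK hα t ht => transc_at K hd F hF hFK x hxK α hα h t ht⟩⟩,
    fun N d hd ζ hζ hζ1 G hG => ?_⟩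
  refine pencil hd (fun i => (X 0 - C (1 - ζ) * X (i + 1)) ^ d) G (fun i => ?_) hG
    (fs_finite hd hζ hζ1)
  have h1 : (X 0 - C (1 - ζ) * X (i + 1) : MvPolynomial (Fin (N + 1)) ℂ).IsHomogeneous 1 :=
    (isHomogeneous_X _ _).sub (by
      have := (isHomogeneous_C (Fin (N + 1)) (1 - ζ)).mul (isHomogeneous_X ℂ (i + 1))
      rwa [zero_add] at this)
  have h2 := h1.pow d
  rwa [one_mul] at h2

end Pool.Agent.Results.MP_b15c9e_ag.VeryGeneralMembers
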